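import Pool.Agent.helper25.TW.Spec

/-!
# Row BR2 of project TW: the coins at the bricks of the rhombus are fair and independent
-/

set_option autoImplicit false

namespace TP.TW

open DP MeasureTheory Finset

theorem BR_phi_inj (n : ℕ) : Function.Injective (phi (n := n)) := by
  intro p q h
  unfold phi at h
  have h1 := congrArg Prod.fst h
  have h2 := congrArg Prod.snd h
  simp only at h1 h2
  have h3 : ((p.2 : ℕ) : ℤ) = ((q.2 : ℕ) : ℤ) := h2
  have h4 : ((p.1 : ℕ) : ℤ) = ((q.1 : ℕ) : ℤ) := by omega
  exact Prod.ext (Fin.ext (by exact_mod_cast h4)) (Fin.ext (by exact_mod_cast h3))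

theorem BR_coin (a : Bool) : (PMF.uniformOfFintype Bool).toMeasure {a} = 2⁻¹ := by
  rw [PMF.toMeasure_apply_singleton _ _ (measurableSet_singleton a)]
  simp

/-- The cylinder of `x` as a product set. -/
theorem BR_cyl (n : ℕ) (x : Fin n × Fin n → Bool) :
    {β : V → Bool | ∀ p, β (phi p) = x p} =
      Set.pi (((univ : Finset (Fin n × Fin n)).image phi : Finset V) : Set V)
        (fun v => {y : Bool | ∀ p, phi p = v → y = x p}) := by
  ext β
  simp only [Set.mem_setOf_eq, Set.mem_pi, Finset.coe_image, Finset.coe_univ, Set.image_univ,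
    Set.mem_range, forall_exists_index]
  constructor
  · intro h v p hp q hq
    rw [← hq]
    exact h q
  · intro h p
    exact h (phi p) p rfl p rfl

theorem BR_cyl_meas (n : ℕ) (x : Fin n × Fin n → Bool) :
    MeasurableSet {β : V → Bool | ∀ p, β (phi p) = x p} := by
  rw [BR_cyl]
  exact MeasurableSet.pi (Finset.countable_toSet _) (fun v _ => MeasurableSet.of_discrete)

theorem BR_cyl_pr (n : ℕ) (x : Fin n × Fin n → Bool) :
    P1.real {β : V → Bool | ∀ p, β (phi p) = x p} = 1 / 2 ^ (n * n) := by
  have h1 : P1 {β : V → Bool | ∀ p, β (phi p) = x p} = 2⁻¹ ^ (n * n) := by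
    rw [BR_cyl]
    unfold P1
    rw [Measure.infinitePi_pi _ (fun i _ => MeasurableSet.of_discrete),
      Finset.prod_image (fun p _ q _ h => BR_phi_inj n h)]
    have h2 : ∀ p : Fin n × Fin n, (PMF.uniformOfFintype Bool).toMeasure
        {y : Bool | ∀ q, phi q = phi p → y = x q} = 2⁻¹ := by
      intro p
      rw [← BR_coin (x p)]
      congr 1
      ext y
      simp only [Set.mem_setOf_eq, Set.mem_singleton_iff]
      constructor
      · intro h
        exact h p rfl
      · intro h q hq
        rw [BR_phi_inj n hq]
        exact h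
    simp only [h2, Finset.prod_const, Finset.card_univ, Fintype.card_prod, Fintype.card_fin]
  rw [Measure.real, h1]
  simp

/-- Row BR2. -/
theorem BR2 : BR2_stmt := by
  classical
  intro n E
  have hP : IsProbabilityMeasure P1 := by unfold P1; infer_instance
  have hset : {β : V → Bool | E (fun p => β (phi p))} =
      ⋃ x ∈ (univ : Finset (Fin n × Fin n → Bool)).filter (fun x => E x),
        {β : V → Bool | ∀ p, β (phi p) = x p} := by
    ext β
    simp only [Set.mem_setOf_eq, Finset.mem_filter, Finset.mem_univ, true_and, Set.mem_iUnion,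
      exists_prop]
    constructor
    · intro h
      exact ⟨fun p => β (phi p), h, fun p => rfl⟩
    · rintro ⟨x, hx, hβ⟩
      have : (fun p => β (phi p)) = x := funext hβ
      rw [this]
      exact hx
  unfold Pr
  rw [hset, measureReal_biUnion_finset]
  · simp only [BR_cyl_pr, Finset.sum_const, nsmul_eq_mul]
    rw [mul_one_div]
  · intro x _ y _ hxy
    rw [Function.onFun, Set.disjoint_left]
    intro β h1 h2
    apply hxy
    funext p
    rw [← h1 p, ← h2 p]
  · intro x _
    exact BR_cyl_meas n x

end TP.TW
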